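import Pool.Agent.H34.CGS.Stmts

set_option autoImplicit false

noncomputable section

namespace Pool.CGS

open Pool.CGR

theorem qex_thm (h1 : QEWStmt) (h2 : CGTStmt) (h3 : MXDStmt) : QEXStmt := by
  intro m A _ τ hτ x S hS s H
  choose q hq using fun W => h1 m A τ hτ x S hS W
  refine ⟨Finsupp.linearCombination ℂ (fun w => Finsupp.linearCombination ℂ q (mix s w)) H,
    fun i P => ?_⟩
  have hcp : ∀ (y : Fin m → A) (Q : List (Fin m) →₀ ℂ),
      cp y i Q = Finsupp.linearCombination ℂ (cg y i) Q :=
    fun y Q => (Finsupp.linearCombination_apply ℂ Q).symm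
  have hpe : pe x P = Finsupp.linearCombination ℂ (ev x) P :=
    (Finsupp.linearCombination_apply ℂ P).symm
  have key : ∀ c : List (Fin m), τ (cp (sh x S s) i H * ev x c) =
      τ (cp x i (Finsupp.linearCombination ℂ
        (fun w => Finsupp.linearCombination ℂ q (mix s w)) H) * ev x c) := by
    intro c
    let L : A →ₗ[ℂ] ℂ := τ.comp (LinearMap.mulRight ℂ (ev x c))
    have hL : ∀ a, L a = τ (a * ev x c) := fun a => rfl
    let M : (List (Fin m) →₀ ℂ) →ₗ[ℂ] ℂ := L.comp (Finsupp.linearCombination ℂ (cg x i))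
    have hM : ∀ Q, M Q = τ (cp x i Q * ev x c) := by
      intro Q
      rw [hcp]
      rfl
    rw [← hM, hcp, ← hL, LinearMap.map_finsupp_linearCombination,
      LinearMap.map_finsupp_linearCombination]
    congr 2
    funext w
    show L (cg (sh x S s) i w) = M (Finsupp.linearCombination ℂ q (mix s w))
    rw [LinearMap.map_finsupp_linearCombination, hL,
      h2 (Fin m) A τ (fun a b => hτ.comm a b) (sh x S s) i (ev x c) w,
      (h3 m A x S s w).2.1 i (ev x c), Finsupp.linearCombination_apply, map_finsuppSum]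
    refine Finsupp.sum_congr fun W _ => ?_
    rw [map_smul]
    congr 1
    show _ = M (q W)
    rw [hM]
    exact hq W i c
  let L1 : A →ₗ[ℂ] ℂ := τ.comp (LinearMap.mulLeft ℂ (cp (sh x S s) i H))
  let L2 : A →ₗ[ℂ] ℂ := τ.comp (LinearMap.mulLeft ℂ (cp x i (Finsupp.linearCombination ℂ
        (fun w => Finsupp.linearCombination ℂ q (mix s w)) H)))
  show L1 (pe x P) = L2 (pe x P)
  rw [hpe, LinearMap.map_finsupp_linearCombination, LinearMap.map_finsupp_linearCombination]
  congr 2
  funext c
  exact key c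

end Pool.CGS
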